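import Pool.Agent.W485.QL.Stm

/-!
# Estimates for the compositions at all scales
-/

set_option autoImplicit false

open Filter Topology Metric

namespace Pool.Agent.W253.QL

open Pool.Agent.W485.QL

/-- tails of the composition -/
def tl (h : ℕ → ℂ → ℂ) (n : ℕ) : ℕ → ℂ → ℂ
  | 0 => id
  | k + 1 => tl h n k ∘ h (n + k)

theorem G_add (h : ℕ → ℂ → ℂ) (n k : ℕ) (z : ℂ) : G h (n + k) z = G h n (tl h n k z) := by
  induction k generalizing z with
  | zero => rfl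
  | succ k ih => exact ih (h (n + k) z)

theorem tl_disp {E : Set ℝ} {l : ℕ → ℝ} {h : ℕ → ℂ → ℂ} (hs : Sys E l h) (n k : ℕ) (z : ℂ) :
    ‖tl h n k z - z‖ ≤ (l n - l (n + k)) * (16 / 450) := by
  induction k generalizing z with
  | zero =>
    show ‖z - z‖ ≤ (l n - l n) * (16 / 450)
    simp
  | succ k ih =>
    have h1 := ih (h (n + k) z)
    have h2 := hs.disp (n + k) z
    have h3 := hs.lsucc (n + k)
    have h4 : ‖tl h n (k + 1) z - z‖ ≤ ‖tl h n k (h (n + k) z) - h (n + k) z‖ +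
        ‖h (n + k) z - z‖ := by
      have h5 : tl h n (k + 1) z - z =
          (tl h n k (h (n + k) z) - h (n + k) z) + (h (n + k) z - z) := by
        show tl h n k (h (n + k) z) - z = _
        ring
      rw [h5]
      exact norm_add_le _ _
    have h6 : l (n + (k + 1)) = l (n + k + 1) := rfl
    rw [h6]
    linarith

theorem tl_disp' {E : Set ℝ} {l : ℕ → ℝ} {h : ℕ → ℂ → ℂ} (hs : Sys E l h) (n k : ℕ) (z : ℂ) :
    ‖tl h n k z - z‖ ≤ l n * (16 / 450) := by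
  have h1 := tl_disp hs n k z
  have h2 := hs.lpos (n + k)
  linarith

theorem h_lip {E : Set ℝ} {l : ℕ → ℝ} {h : ℕ → ℂ → ℂ} (hs : Sys E l h) (k : ℕ) (z z' : ℂ) :
    ‖h k z - h k z'‖ ≤ 11 / 10 * ‖z - z'‖ ∧ 9 / 10 * ‖z - z'‖ ≤ ‖h k z - h k z'‖ := by
  have h1 := hs.lip k z z'
  constructor
  · have h2 : ‖h k z - h k z'‖ ≤ ‖(h k z - h k z') - (z - z')‖ + ‖z - z'‖ := by
      have h3 : h k z - h k z' = ((h k z - h k z') - (z - z')) + (z - z') := by ring
      calc ‖h k z - h k z'‖ = ‖((h k z - h k z') - (z - z')) + (z - z')‖ := by rw [← h3]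
        _ ≤ _ := norm_add_le _ _
    linarith
  · have h2 : ‖z - z'‖ ≤ ‖(h k z - h k z') - (z - z')‖ + ‖h k z - h k z'‖ := by
      have h3 : z - z' = (h k z - h k z') - ((h k z - h k z') - (z - z')) := by ring
      calc ‖z - z'‖ = ‖(h k z - h k z') - ((h k z - h k z') - (z - z'))‖ := by rw [← h3]
        _ ≤ ‖h k z - h k z'‖ + ‖(h k z - h k z') - (z - z')‖ := norm_sub_le _ _
        _ = _ := add_comm _ _
    linarith

theorem G_lip {E : Set ℝ} {l : ℕ → ℝ} {h : ℕ → ℂ → ℂ} (hs : Sys E l h) (n : ℕ) (z z' : ℂ) :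
    ‖G h n z - G h n z'‖ ≤ (11 / 10) ^ n * ‖z - z'‖ := by
  induction n generalizing z z' with
  | zero =>
    rw [pow_zero, one_mul]
    exact le_rfl
  | succ n ih =>
    have h1 := ih (h n z) (h n z')
    have h2 := (h_lip hs n z z').1
    show ‖G h n (h n z) - G h n (h n z')‖ ≤ _
    refine h1.trans ?_
    rw [pow_succ, mul_assoc]
    exact mul_le_mul_of_nonneg_left h2 (by positivity)

theorem l_le {E : Set ℝ} {l : ℕ → ℝ} {h : ℕ → ℂ → ℂ} (hs : Sys E l h) (n : ℕ) :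
    l n ≤ (1 / 16) ^ n := by
  induction n with
  | zero => rw [hs.l0, pow_zero]
  | succ n ih =>
    have h1 := hs.lsucc n
    rw [pow_succ]
    linarith

/-- the map before `G n` -/
theorem mid {E : Set ℝ} {l : ℕ → ℝ} {h : ℕ → ℂ → ℂ} (hs : Sys E l h) (n k : ℕ) (p q : ℂ)
    (hr : l (n + 1) ≤ ‖q - p‖) :
    ‖h n (tl h (n + 1) k q) - h n (tl h (n + 1) k p)‖ ≤ 6 / 5 * ‖q - p‖ ∧
    4 / 5 * ‖q - p‖ ≤ ‖h n (tl h (n + 1) k q) - h n (tl h (n + 1) k p)‖ := by
  set a := tl h (n + 1) k q with ha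
  set b := tl h (n + 1) k p with hb
  have h1 : ‖a - q‖ ≤ l (n + 1) * (16 / 450) := tl_disp' hs (n + 1) k q
  have h2 : ‖b - p‖ ≤ l (n + 1) * (16 / 450) := tl_disp' hs (n + 1) k p
  have h3 : ‖a - b‖ ≤ ‖q - p‖ + ‖a - q‖ + ‖b - p‖ := by
    have h4 : a - b = (q - p) + (a - q) - (b - p) := by ring
    calc ‖a - b‖ = ‖(q - p) + (a - q) - (b - p)‖ := by rw [← h4]
      _ ≤ ‖(q - p) + (a - q)‖ + ‖b - p‖ := norm_sub_le _ _
      _ ≤ ‖q - p‖ + ‖a - q‖ + ‖b - p‖ := by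
        have := norm_add_le (q - p) (a - q)
        linarith
  have h5 : ‖q - p‖ ≤ ‖a - b‖ + ‖a - q‖ + ‖b - p‖ := by
    have h4 : q - p = (a - b) - (a - q) + (b - p) := by ring
    calc ‖q - p‖ = ‖(a - b) - (a - q) + (b - p)‖ := by rw [← h4]
      _ ≤ ‖(a - b) - (a - q)‖ + ‖b - p‖ := norm_add_le _ _
      _ ≤ ‖a - b‖ + ‖a - q‖ + ‖b - p‖ := by
        have := norm_sub_le (a - b) (a - q)
        linarith
  obtain ⟨h6, h7⟩ := h_lip hs n a b
  constructor <;> linarith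

theorem t_Fin (E : Set ℝ) (l : ℕ → ℝ) (h : ℕ → ℂ → ℂ) (hs : Sys E l h) (hN : NS E l h)
    (hQ : QS l h) : Pool.Agent.W485.QL.Fin E l h := by
  have hG : ∀ n k (z : ℂ), G h (n + 1 + k) z = G h n (h n (tl h (n + 1) k z)) := by
    intro n k z
    rw [G_add]
    rfl
  have hqs : ∀ n N (p q : ℂ), n + 1 ≤ N → l (n + 1) ≤ ‖q - p‖ → ‖q - p‖ < l n →
      ∀ t : ℝ, 1 ≤ t → (∀ k : ℕ, N = n + 1 + k → ∀ z' : ℂ, ‖z' - h n (tl h (n + 1) k p)‖ ≤ 2 * l n →
        1 / 2 * t * ‖z' - h n (tl h (n + 1) k p)‖ ≤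
          ‖G h n z' - G h n (h n (tl h (n + 1) k p))‖ ∧
        ‖G h n z' - G h n (h n (tl h (n + 1) k p))‖ ≤ 2 * t * ‖z' - h n (tl h (n + 1) k p)‖) →
      2 / 5 * t * ‖q - p‖ ≤ ‖G h N q - G h N p‖ ∧ ‖G h N q - G h N p‖ ≤ 12 / 5 * t * ‖q - p‖ := by
    intro n N p q hn h1 h2 t ht hz
    obtain ⟨k, rfl⟩ := Nat.exists_eq_add_of_le hn
    obtain ⟨h3, h4⟩ := mid hs n k p q h1
    have hl := hs.lpos n
    obtain ⟨h5, h6⟩ := hz k rfl (h n (tl h (n + 1) k q)) (by linarith)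
    rw [hG, hG]
    constructor
    · refine le_trans ?_ h5
      have : 1 / 2 * t * (4 / 5 * ‖q - p‖) ≤
          1 / 2 * t * ‖h n (tl h (n + 1) k q) - h n (tl h (n + 1) k p)‖ :=
        mul_le_mul_of_nonneg_left h4 (by positivity)
      linarith
    · refine h6.trans ?_
      have : 2 * t * ‖h n (tl h (n + 1) k q) - h n (tl h (n + 1) k p)‖ ≤
          2 * t * (6 / 5 * ‖q - p‖) := mul_le_mul_of_nonneg_left h3 (by positivity)
      linarith
  refine ⟨?_, ?_, ?_, ?_, ?_⟩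
  · intro N z
    have h1 := G_add h 0 N z
    rw [Nat.zero_add] at h1
    have h2 := tl_disp' hs 0 N z
    rw [h1, hs.l0] at *
    show ‖tl h 0 N z - z‖ ≤ 1 / 10
    linarith
  · intro n N z hn
    obtain ⟨k, rfl⟩ := Nat.exists_eq_add_of_le hn
    rw [G_add]
    refine (G_lip hs n _ _).trans ?_
    have h1 := tl_disp' hs n k z
    have h2 := l_le hs n
    have h3 : ‖tl h n k z - z‖ ≤ (1 / 16) ^ n := by
      have := hs.lpos n
      linarith
    calc (11 / 10 : ℝ) ^ n * ‖tl h n k z - z‖ ≤ (11 / 10) ^ n * (1 / 16) ^ n :=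
          mul_le_mul_of_nonneg_left h3 (by positivity)
      _ = (11 / 160) ^ n := by rw [← mul_pow]; norm_num
      _ ≤ (1 / 2) ^ n := pow_le_pow_left₀ (by norm_num) (by norm_num) n
  · intro n N p q q' hn heq h1 h2
    obtain ⟨k, hk⟩ := Nat.exists_eq_add_of_le hn
    obtain ⟨t, ht, hz⟩ := hQ n (h n (tl h (n + 1) k p))
    have hz' : ∀ k' : ℕ, N = n + 1 + k' → ∀ z' : ℂ, ‖z' - h n (tl h (n + 1) k' p)‖ ≤ 2 * l n →
        1 / 2 * t * ‖z' - h n (tl h (n + 1) k' p)‖ ≤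
          ‖G h n z' - G h n (h n (tl h (n + 1) k' p))‖ ∧
        ‖G h n z' - G h n (h n (tl h (n + 1) k' p))‖ ≤
          2 * t * ‖z' - h n (tl h (n + 1) k' p)‖ := by
      intro k' hk'
      have : k' = k := by omega
      subst this
      exact hz
    have h3 := (hqs n N p q hn h1 h2 t ht hz').2
    have h4 := (hqs n N p q' hn (heq ▸ h1) (heq ▸ h2) t ht hz').1
    rw [← heq] at h4
    have h5 : 0 ≤ t * ‖q - p‖ := by positivity
    linarith
  · intro n N p q hn h1 h2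
    obtain ⟨k, hk⟩ := Nat.exists_eq_add_of_le hn
    obtain ⟨t, ht, hz⟩ := hQ n (h n (tl h (n + 1) k p))
    have hz' : ∀ k' : ℕ, N = n + 1 + k' → ∀ z' : ℂ, ‖z' - h n (tl h (n + 1) k' p)‖ ≤ 2 * l n →
        1 / 2 * t * ‖z' - h n (tl h (n + 1) k' p)‖ ≤
          ‖G h n z' - G h n (h n (tl h (n + 1) k' p))‖ ∧
        ‖G h n z' - G h n (h n (tl h (n + 1) k' p))‖ ≤
          2 * t * ‖z' - h n (tl h (n + 1) k' p)‖ := by
      intro k' hk'
      have : k' = k := by omega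
      subst this
      exact hz
    have h3 := (hqs n N p q hn h1 h2 t ht hz').1
    have h4 : ‖q - p‖ ≤ t * ‖q - p‖ := le_mul_of_one_le_left (norm_nonneg _) ht
    have h5 := norm_nonneg (q - p)
    linarith
  · intro n N p q hn hp h1 h2
    obtain ⟨k, rfl⟩ := Nat.exists_eq_add_of_le hn
    obtain ⟨h3, h4⟩ := mid hs n k p q h1
    have hl := hs.lpos n
    have hl1 := hs.lpos (n + 1)
    have hls := hs.lsucc n
    have hd : ‖h n (tl h (n + 1) k p) - p‖ ≤ 3 * l n := by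
      have h5 := hs.disp n (tl h (n + 1) k p)
      have h6 := tl_disp' hs (n + 1) k p
      have h7 : ‖h n (tl h (n + 1) k p) - p‖ ≤
          ‖h n (tl h (n + 1) k p) - tl h (n + 1) k p‖ + ‖tl h (n + 1) k p - p‖ := by
        have h8 : h n (tl h (n + 1) k p) - p =
            (h n (tl h (n + 1) k p) - tl h (n + 1) k p) + (tl h (n + 1) k p - p) := by ring
        rw [h8]
        exact norm_add_le _ _
      linarith
    have hinf : infDist (h n (tl h (n + 1) k p)).re E ≤ 3 * l n := by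
      refine (infDist_le_dist_of_mem hp).trans ?_
      rw [Real.dist_eq, ← Complex.sub_re]
      exact (Complex.abs_re_le_norm _).trans hd
    obtain ⟨A, hA, hAz⟩ := hN n (h n (tl h (n + 1) k p)) hinf
    have h5 := hAz (h n (tl h (n + 1) k q)) (by linarith)
    rw [hG, hG]
    set u := h n (tl h (n + 1) k q) - h n (tl h (n + 1) k p) with hu
    set v := G h n (h n (tl h (n + 1) k q)) - G h n (h n (tl h (n + 1) k p)) with hv
    have h6 : ‖A‖ * ‖u‖ ≤ ‖v‖ + ‖v - A * u‖ := by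
      rw [← norm_mul]
      have h7 : A * u = v - (v - A * u) := by ring
      calc ‖A * u‖ = ‖v - (v - A * u)‖ := by rw [← h7]
        _ ≤ _ := norm_sub_le _ _
    have h7 : 3 / 4 * (‖A‖ * ‖u‖) ≤ ‖v‖ := by linarith
    have h8 : (1 + 1 / 100000 : ℝ) ^ n * (4 / 5 * ‖q - p‖) ≤ ‖A‖ * ‖u‖ :=
      mul_le_mul hA h4 (by positivity) (norm_nonneg _)
    have h9 : 0 ≤ (1 + 1 / 100000 : ℝ) ^ n * ‖q - p‖ := by positivity
    linarith

end Pool.Agent.W253.QL
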